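import Pool.Agent.H58.SO.Basic

/-!
# Row TM3 of the board `vto_modules`: tame operations, different types
-/

set_option autoImplicit false
set_option linter.unusedVariables false

namespace Pool.Agent.H21.SO

open Pool.Agent.H68.BP Pool.Agent.H58.SF Pool.Agent.H53.GC Pool.Agent.H53.NR Pool.Agent.H58.SO
open Classical

section basic

variable {V X Θ : Type} {M : ℕ} [LinearOrder V]

/-- systems of points with copied colours -/
theorem sys' (hCFG : T_CFG) (B : Bs V X Θ M) {W : Type} [Finite W] (u : W → V)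
    (r : W → W → Prop) (hr : ∀ n n', r n n' → r n' n) :
    ∃ e : W → V, Function.Injective e ∧ ∀ n n',
      B.c (e n) (e n') = if r n n' ∧ u n ≠ u n' then B.c (u n) (u n') else
        B.fr (B.vt (u n)) (B.vt (u n')) := by
  obtain ⟨k, ⟨E⟩⟩ := Finite.exists_equiv_fin W
  have hrk : Function.Injective (fun w => (E w : ℕ)) := fun a b h => E.injective (Fin.ext h)
  have hr' : ∀ n n', r n n' ↔ r n' n := fun n n' => ⟨hr n n', hr n' n⟩
  have c1 : ∀ n n', (if r n' n ∧ u n' ≠ u n then B.c (u n') (u n) else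
      B.fr (B.vt (u n')) (B.vt (u n))) = B.inv (if r n n' ∧ u n ≠ u n' then B.c (u n) (u n') else
      B.fr (B.vt (u n)) (B.vt (u n'))) := by
    intro n n'
    by_cases h : r n n' ∧ u n ≠ u n'
    · rw [if_pos h, if_pos ⟨hr n n' h.1, Ne.symm h.2⟩, B.sym]
    · rw [if_neg h, if_neg (fun h' => h ⟨hr n' n h'.1, Ne.symm h'.2⟩), B.frI]
  have c2 : ∀ n, (if r n n ∧ u n ≠ u n then B.c (u n) (u n) else
      B.fr (B.vt (u n)) (B.vt (u n))) = B.fr (B.vt (u n)) (B.vt (u n)) := by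
    intro n
    rw [if_neg (fun h => h.2 rfl)]
  have c3 : ∀ n n', B.L (if r n n' ∧ u n ≠ u n' then B.c (u n) (u n') else
      B.fr (B.vt (u n)) (B.vt (u n'))) = B.vt (u n) := by
    intro n n'
    by_cases h : r n n' ∧ u n ≠ u n'
    · rw [if_pos h, B.left]
    · rw [if_neg h, B.frL]
  obtain ⟨f, hf1, hf2⟩ := hCFG V X Θ M B W ℕ (fun w => (E w : ℕ)) (fun w => B.vt (u w))
    (fun n n' => if r n n' ∧ u n ≠ u n' then B.c (u n) (u n') else
        B.fr (B.vt (u n)) (B.vt (u n'))) hrk c1 c2 c3 (by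
    intro K _ hK
    have h1 : ∀ x ∈ K, ∀ y ∈ K, x ≠ y → r x y ∧ u x ≠ u y := by
      intro x hx y hy hxy
      by_contra h2
      exact hK x hx y hy hxy (if_neg h2)
    refine ⟨u, fun x hx y hy he => ?_, fun x hx y hy => ?_⟩
    · by_contra hne
      exact (h1 x hx y hy hne).2 he
    · by_cases hxy : x = y
      · subst hxy
        rw [if_neg (fun h => h.2 rfl)]
        exact B.diag _
      · rw [if_pos (h1 x hx y hy hxy)])
  refine ⟨f, ?_, hf2⟩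
  intro a b hab
  by_contra hne
  rcases lt_or_gt_of_ne (fun h => hne (hrk h) : (E a : ℕ) ≠ (E b : ℕ)) with h | h
  · exact absurd hab (ne_of_lt (hf1 a b h))
  · exact absurd hab (ne_of_gt (hf1 b a h))

/-- new points -/
theorem ext_pts (hCFG : T_CFG) (B : Bs V X Θ M) {P Q : Type} [Finite P] [Finite Q] (x : P → V)
    (w : Q → V) (ρ : Q → V → Prop) :
    ∃ (x' : P → V) (z : Q → V), (∀ a, B.vt (x' a) = B.vt (x a)) ∧
      (∀ a b, (x' a = x' b ↔ x a = x b) ∧ B.c (x' a) (x' b) = B.c (x a) (x b)) ∧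
      (∀ q, B.vt (z q) = B.vt (w q)) ∧ Function.Injective z ∧ (∀ q a, z q ≠ x' a) ∧
      (∀ q a, ρ q (x a) → w q ≠ x a → B.c (z q) (x' a) = B.c (w q) (x a)) ∧
      ∀ q q', B.c (z q) (z q') = B.fr (B.vt (w q)) (B.vt (w q')) := by
  let r : (Set.range x ⊕ Q) → (Set.range x ⊕ Q) → Prop := fun n n' =>
    match n, n' with
    | Sum.inl _, Sum.inl _ => True
    | Sum.inr q, Sum.inl v => ρ q v.1
    | Sum.inl v, Sum.inr q => ρ q v.1
    | Sum.inr _, Sum.inr _ => False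
  have hr : ∀ n n', r n n' → r n' n := by
    rintro (v | q) (v' | q') h
    · trivial
    · exact h
    · exact h
    · exact h
  obtain ⟨e, he, hc⟩ := sys' hCFG B (Sum.elim (fun v : Set.range x => v.1) w) r hr
  have hv : ∀ n, B.vt (e n) = B.vt (Sum.elim (fun v : Set.range x => v.1) w n) := by
    intro n
    have h1 := hc n n
    rw [if_neg (fun h => h.2 rfl)] at h1
    rw [← B.left (e n) (e n), h1, B.frL]
  have hxe : ∀ a b, (⟨x a, a, rfl⟩ : Set.range x) = ⟨x b, b, rfl⟩ ↔ x a = x b := fun a b =>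
    Subtype.mk_eq_mk
  refine ⟨fun a => e (Sum.inl ⟨x a, a, rfl⟩), fun q => e (Sum.inr q), fun a => hv _,
    fun a b => ⟨?_, ?_⟩, fun q => hv _, fun q q' h => Sum.inr.inj (he h), fun q a h => ?_,
    fun q a h1 h2 => ?_, fun q q' => ?_⟩
  · rw [he.eq_iff, Sum.inl.injEq, hxe]
  · rw [hc]
    by_cases h : x a = x b
    · rw [if_neg (fun h' => h'.2 h)]
      show B.fr (B.vt (x a)) (B.vt (x b)) = B.c (x a) (x b)
      rw [← h, B.diag]
    · rw [if_pos ⟨trivial, h⟩]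
      rfl
  · exact Sum.inr_ne_inl (he h)
  · rw [hc, if_pos ⟨h1, h2⟩]
    rfl
  · rw [hc, if_neg (fun h => h.1)]
    rfl

theorem rnk_comp {B : Bs V X Θ M} {D : Set Θ} {P P' : Type} {x : P → V} {L : P → ℕ}
    (h : Rnk B D x L) (g : P' → P) : Rnk B D (fun a => x (g a)) (fun a => L (g a)) :=
  fun a b => h (g a) (g b)

theorem rnk_sum {B : Bs V X Θ M} {D : Set Θ} {P Q : Type} {y : P → V} {z : Q → V} {l : P → ℕ}
    {l' : Q → ℕ} (h : Rnk B D y l) (h1 : ∀ q a, l' q ≠ l a) (h2 : ∀ q a, z q ≠ y a)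
    (h3 : ∀ q q', l' q = l' q' ↔ z q = z q') : Rnk B D (Sum.elim y z) (Sum.elim l l') := by
  rintro (a | q) (b | q') ha hb
  · exact h a b ha hb
  · exact ⟨fun h => absurd h.symm (h1 q' a), fun h => absurd h.symm (h2 q' a)⟩
  · exact ⟨fun h => absurd h (h1 q b), fun h => absurd h (h2 q b)⟩
  · exact h3 q q'

theorem rnk_of {B : Bs V X Θ M} {D : Set Θ} {P : Type} {x y : P → V} {L L' : P → ℕ}
    (h : Rnk B D x L) (h1 : ∀ a, B.vt (y a) = B.vt (x a)) (h2 : ∀ a b, y a = y b ↔ x a = x b)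
    (h3 : ∀ a b, L' a = L' b ↔ L a = L b) : Rnk B D y L' := by
  intro a b ha hb
  rw [h1] at ha hb
  rw [h2, h3]
  exact h a b ha hb

/-- the data depend on the colours only -/
theorem dat_congr {B : Bs V X Θ M} {D : Set Θ} {P P' : Type} {x : P → V} {L : P → ℕ}
    {x' : P' → V} {L' : P' → ℕ} {a b : P} {a' b' : P'} (h1 : B.vt (x' a') = B.vt (x a))
    (h2 : B.vt (x' b') = B.vt (x b))
    (h3 : B.vt (x a) ∉ D → B.vt (x b) ∉ D → (x' a' = x' b' ↔ x a = x b) ∧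
      (x a ≠ x b → B.c (x' a') (x' b') = B.c (x a) (x b) ∧ (L' a' < L' b' ↔ L a < L b))) :
    dat B D x' L' a' b' = dat B D x L a b := by
  unfold dat
  rw [h1, h2]
  refine congrArg _ ?_
  by_cases hD : B.vt (x a) ∈ D ∨ B.vt (x b) ∈ D
  · rw [if_pos hD, if_pos hD]
  · rw [if_neg hD, if_neg hD]
    push Not at hD
    obtain ⟨h4, h5⟩ := h3 hD.1 hD.2
    by_cases he : x a = x b
    · rw [if_pos he, if_pos (h4.2 he)]
    · rw [if_neg he, if_neg (fun h => he (h4.1 h)), (h5 he).1]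
      congr 3
      exact decide_eq_decide.2 (h5 he).2

/-- the third position copies the colour of the first position -/
theorem conf1 (hCFG : T_CFG) (B : Bs V X Θ M) (D : Set Θ) (x : Fin 2 → V) (L : Fin 2 → ℕ)
    (hR : Rnk B D x L) : ∃ (x' : Fin 3 → V) (L' : Fin 3 → ℕ), Rnk B D x' L' ∧
      B.vt (x' 0) = B.vt (x 0) ∧ B.vt (x' 1) = B.vt (x 1) ∧ B.vt (x' 2) = B.vt (x 0) ∧
      dat B D x' L' 0 1 = dat B D x L 0 1 ∧ dat B D x' L' 2 1 = dat B D x L 0 1 ∧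
      (B.vt (x 0) ∉ D → (x' 0 = x' 2 ↔ x 0 = x 1)) := by
  by_cases hE : B.vt (x 0) ∉ D ∧ x 0 = x 1
  · refine ⟨fun a => x (![0, 1, 0] a), fun a => L (![0, 1, 0] a), rnk_comp hR _, rfl, rfl, rfl, rfl,
      rfl, fun _ => ⟨fun _ => hE.2, fun _ => rfl⟩⟩
  · obtain ⟨y, z, h1, h2, h3, h4, h5, h6, h7⟩ := ext_pts hCFG B x (fun _ : Unit => x 0)
      (fun _ v => v = x 1)
    have hL : B.vt (x 0) ∉ D → B.vt (x 1) ∉ D → (L 0 = L 1 ↔ x 0 = x 1) := hR 0 1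
    refine ⟨fun a => Sum.elim y z ((![Sum.inl 0, Sum.inl 1, Sum.inr ()] : Fin 3 → Fin 2 ⊕ Unit) a),
      fun a => Sum.elim (fun a => 2 * L a) (fun _ => 2 * L 0 + 1)
        ((![Sum.inl 0, Sum.inl 1, Sum.inr ()] : Fin 3 → Fin 2 ⊕ Unit) a),
      rnk_comp (rnk_sum (rnk_of hR h1 (fun a b => (h2 a b).1) fun a b => by omega)
        (fun q a => by omega) h5 fun q q' => by simp) _, h1 0, h1 1, h3 (), ?_, ?_, ?_⟩
    · refine dat_congr (h1 0) (h1 1) fun ha hb => ⟨(h2 0 1).1, fun hne => ⟨(h2 0 1).2, ?_⟩⟩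
      show 2 * L 0 < 2 * L 1 ↔ L 0 < L 1
      omega
    · refine dat_congr (h3 ()) (h1 1) fun ha hb => ?_
      have hne : x 0 ≠ x 1 := fun h => hE ⟨ha, h⟩
      refine ⟨⟨fun h => absurd h (h5 () 1), fun h => absurd h hne⟩,
        fun _ => ⟨h6 () 1 rfl hne, ?_⟩⟩
      show 2 * L 0 + 1 < 2 * L 1 ↔ L 0 < L 1
      have h8 : L 0 ≠ L 1 := fun h => hne ((hL ha hb).1 h)
      omega
    · intro ha
      exact ⟨fun h => absurd h.symm (h5 () 0), fun h => absurd ⟨ha, h⟩ hE⟩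

/-- two new positions, free from everything -/
theorem conf3 (hCFG : T_CFG) (B : Bs V X Θ M) (D : Set Θ) (x : Fin 2 → V) (L : Fin 2 → ℕ)
    (hR : Rnk B D x L) : ∃ (x' : Fin 4 → V) (L' : Fin 4 → ℕ), Rnk B D x' L' ∧
      B.vt (x' 0) = B.vt (x 0) ∧ B.vt (x' 1) = B.vt (x 1) ∧ B.vt (x' 2) = B.vt (x 0) ∧
      B.vt (x' 3) = B.vt (x 1) ∧ dat B D x' L' 0 1 = dat B D x L 0 1 ∧
      (dat B D x' L' 2 3 = ((B.vt (x 0), B.vt (x 1)), if B.vt (x 0) ∈ D ∨ B.vt (x 1) ∈ D then none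
        else some (some (B.fr (B.vt (x 0)) (B.vt (x 1)), true)))) ∧ x' 0 ≠ x' 3 := by
  obtain ⟨y, z, h1, h2, h3, h4, h5, h6, h7⟩ := ext_pts hCFG B x x (fun _ _ => False)
  have hL : B.vt (x 0) ∉ D → B.vt (x 1) ∉ D → (L 0 = L 1 ↔ x 0 = x 1) := hR 0 1
  have hz : z 0 ≠ z 1 := fun h => absurd (h4 h) (by decide)
  refine ⟨fun a => Sum.elim y z ((![Sum.inl 0, Sum.inl 1, Sum.inr 0, Sum.inr 1] :
      Fin 4 → Fin 2 ⊕ Fin 2) a),
    fun a => Sum.elim L (fun q : Fin 2 => L 0 + L 1 + 1 + (q : ℕ))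
      ((![Sum.inl 0, Sum.inl 1, Sum.inr 0, Sum.inr 1] : Fin 4 → Fin 2 ⊕ Fin 2) a),
    rnk_comp (rnk_sum (rnk_of hR h1 (fun a b => (h2 a b).1) fun a b => Iff.rfl)
      (fun q a => ?_) h5 fun q q' => ?_) _, h1 0, h1 1, h3 0, h3 1, ?_, ?_, fun h => h5 1 0 h.symm⟩
  · have ha : a = 0 ∨ a = 1 := by omega
    rcases ha with rfl | rfl <;> omega
  · rw [h4.eq_iff]
    constructor
    · intro h
      apply Fin.ext
      omega
    · rintro rfl
      rfl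
  · exact dat_congr (h1 0) (h1 1) fun ha hb => ⟨(h2 0 1).1, fun hne => ⟨(h2 0 1).2, Iff.rfl⟩⟩
  · unfold dat
    show ((B.vt (z 0), B.vt (z 1)), if B.vt (z 0) ∈ D ∨ B.vt (z 1) ∈ D then none else
      if z 0 = z 1 then some none else some (some (B.c (z 0) (z 1),
        decide (L 0 + L 1 + 1 + ((0 : Fin 2) : ℕ) < L 0 + L 1 + 1 + ((1 : Fin 2) : ℕ))))) = _
    rw [h3, h3, if_neg hz, h7, decide_eq_true (by simp)]

/-- a third position, different from the others -/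
theorem conf2 (hCFG : T_CFG) (B : Bs V X Θ M) (D : Set Θ) (x : Fin 2 → V) (L : Fin 2 → ℕ)
    (hR : Rnk B D x L) : ∃ (x' : Fin 3 → V) (L' : Fin 3 → ℕ), Rnk B D x' L' ∧
      B.vt (x' 0) = B.vt (x 0) ∧ B.vt (x' 1) = B.vt (x 1) ∧ B.vt (x' 2) = B.vt (x 1) ∧
      dat B D x' L' 0 1 = dat B D x L 0 1 ∧ x' 0 ≠ x' 2 := by
  obtain ⟨x', L', h1, h2, h3, h4, h5, h6, h7, h8⟩ := conf3 hCFG B D x L hR
  exact ⟨fun a => x' (![0, 1, 3] a), fun a => L' (![0, 1, 3] a), rnk_comp h1 _, h2, h3, h5, h6, h8⟩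

/-- three different positions -/
theorem conf4 (hCFG : T_CFG) (B : Bs V X Θ M) (D : Set Θ) (w : Fin 3 → V) :
    ∃ (x : Fin 3 → V) (L : Fin 3 → ℕ), Rnk B D x L ∧ ∀ a, B.vt (x a) = B.vt (w a) := by
  obtain ⟨y, z, h1, h2, h3, h4, -⟩ := ext_pts hCFG B (fun a : Fin 0 => a.elim0) w
    (fun _ _ => False)
  refine ⟨z, fun a => (a : ℕ), fun a b _ _ => ?_, h3⟩
  rw [h4.eq_iff, Fin.ext_iff]

end basic

section main

variable {σ : Sig} {V X Θ : Type} [LinearOrder V] {M : ℕ}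

/-- the value at the pair of positions is the equality -/
def Val (B : Bs V X Θ M) (D : Set Θ) {n : ℕ} (φ : (Fin n → Dt X Θ) → Ot X Θ) {P : Type}
    (x : Fin n → P → V) (L : Fin n → P → ℕ) (a b : P) : Prop :=
  (φ (fun m => dat B D (x m) (L m) a b)).2 = some none

theorem val_facts (hOLK : T_OLK) {B : Bs V X Θ M} {𝔸 : Str σ V} {D : Set Θ} {n : ℕ}
    {Q : (Fin n → Θ) → Prop} {φ : (Fin n → Dt X Θ) → Ot X Θ} (hφ : OLO B 𝔸 D Q φ) {k : ℕ}
    (hk : 1 ≤ k) (hk4 : k ≤ 4) (x : Fin n → Fin k → V) (L : Fin n → Fin k → ℕ)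
    (hR : ∀ m, Rnk B D (x m) (L m)) (hQ : ∀ a, Q (fun m => B.vt (x m a))) :
    ∃ y : Fin k → V, (∀ a b, (φ (fun m => dat B D (x m) (L m) a b)).1 =
      (ty D φ (fun m => B.vt (x m a)), ty D φ (fun m => B.vt (x m b)))) ∧
      ∀ a b, Val B D φ x L a b ↔ ty D φ (fun m => B.vt (x m a)) ∉ D ∧
        ty D φ (fun m => B.vt (x m b)) ∉ D ∧ y a = y b := by
  obtain ⟨y, hy⟩ := hOLK σ V X Θ M B 𝔸 D n Q φ hφ k x L hk (hk4.trans B.four) hR hQ
  have h1 : ∀ a, B.vt (y a) = ty D φ (fun m => B.vt (x m a)) := by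
    intro a
    rw [ty_eq φ x L a, ← hy a a]
    rfl
  refine ⟨y, fun a b => ?_, fun a b => ?_⟩
  · rw [← hy a b, ← h1, ← h1]
    rfl
  · unfold Val
    rw [← hy a b, ← h1, ← h1]
    unfold out
    dsimp only
    by_cases hD : B.vt (y a) ∈ D ∨ B.vt (y b) ∈ D
    · rw [if_pos hD]
      exact ⟨fun h => absurd h (by simp), fun h => absurd hD (by tauto)⟩
    · rw [if_neg hD]
      by_cases he : y a = y b
      · rw [if_pos he]
        exact ⟨fun _ => ⟨fun h => hD (Or.inl h), fun h => hD (Or.inr h), he⟩, fun _ => rfl⟩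
      · rw [if_neg he]
        exact ⟨fun h => by simp at h, fun h => absurd h.2.2 he⟩

variable {B : Bs V X Θ M} {𝔸 : Str σ V} {D : Set Θ} {n : ℕ} {Q : (Fin n → Θ) → Prop}
  {φ : (Fin n → Dt X Θ) → Ot X Θ} {J : (Fin n → Θ) → Set (Fin n)}

/-- the property of `J` -/
def PJ (B : Bs V X Θ M) (D : Set Θ) {n : ℕ} (Q : (Fin n → Θ) → Prop)
    (φ : (Fin n → Dt X Θ) → Ot X Θ) (J : (Fin n → Θ) → Set (Fin n)) : Prop :=
  ∀ θ, Q θ → ty D φ θ ∉ D → ∀ (x : Fin n → Fin 2 → V) (L : Fin n → Fin 2 → ℕ),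
    (∀ m, Rnk B D (x m) (L m)) → (∀ m a, B.vt (x m a) = θ m) →
    ((φ (fun m => dat B D (x m) (L m) 0 1)).2 = some none ↔ ∀ m ∈ J θ, x m 0 = x m 1)

theorem pj_use (hJ : PJ B D Q φ J) {k : ℕ} (x : Fin n → Fin k → V) (L : Fin n → Fin k → ℕ)
    (hR : ∀ m, Rnk B D (x m) (L m)) (a b : Fin k) (θ : Fin n → Θ)
    (ha : ∀ m, B.vt (x m a) = θ m) (hb : ∀ m, B.vt (x m b) = θ m) (hQ : Q θ)
    (hτ : ty D φ θ ∉ D) : Val B D φ x L a b ↔ ∀ m ∈ J θ, x m a = x m b :=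
  hJ θ hQ hτ (fun m i => x m ((![a, b] : Fin 2 → Fin k) i))
    (fun m i => L m ((![a, b] : Fin 2 → Fin k) i)) (fun m => rnk_comp (hR m) _)
    (fun m i => by
      fin_cases i
      · exact ha m
      · exact hb m)

theorem one (hCFG : T_CFG) (hOLK : T_OLK) (hφ : OLO B 𝔸 D Q φ) (hJD : ∀ θ, ∀ m ∈ J θ, θ m ∉ D)
    (hJ : PJ B D Q φ J) (x : Fin n → Fin 2 → V) (L : Fin n → Fin 2 → ℕ)
    (hR : ∀ m, Rnk B D (x m) (L m)) (hQ : ∀ a, Q (fun m => B.vt (x m a)))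
    (hv : Val B D φ x L 0 1) : ∀ m ∈ J (fun m => B.vt (x m 0)), x m 0 = x m 1 := by
  choose x' L' h1 h2 h3 h4 h5 h6 h7 using fun m => conf1 hCFG B D (x m) (L m) (hR m)
  have hQ' : ∀ a : Fin 3, Q (fun m => B.vt (x' m a)) := by
    intro a
    fin_cases a
    · show Q (fun m => B.vt (x' m 0))
      rw [funext h2]
      exact hQ 0
    · show Q (fun m => B.vt (x' m 1))
      rw [funext h3]
      exact hQ 1
    · show Q (fun m => B.vt (x' m 2))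
      rw [funext h4]
      exact hQ 0
  obtain ⟨y, -, hy⟩ := val_facts hOLK hφ (by norm_num) (by norm_num) x' L' h1 hQ'
  have v01 : Val B D φ x' L' 0 1 := by
    unfold Val at hv ⊢
    rw [funext h5]
    exact hv
  have v21 : Val B D φ x' L' 2 1 := by
    unfold Val at hv ⊢
    rw [funext h6]
    exact hv
  obtain ⟨a1, a2, a3⟩ := (hy 0 1).1 v01
  obtain ⟨b1, b2, b3⟩ := (hy 2 1).1 v21
  have v02 : Val B D φ x' L' 0 2 := (hy 0 2).2 ⟨a1, b1, a3.trans b3.symm⟩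
  have hτ : ty D φ (fun m => B.vt (x m 0)) ∉ D := by
    rw [← funext h2]
    exact a1
  intro m hm
  exact (h7 m (hJD _ m hm)).1
    ((pj_use hJ x' L' h1 0 2 (fun m => B.vt (x m 0)) h2 h4 (hQ 0) hτ).1 v02 m hm)

/-- the exchanged configuration -/
theorem swp (hOLK : T_OLK) (hφ : OLO B 𝔸 D Q φ) (x : Fin n → Fin 2 → V) (L : Fin n → Fin 2 → ℕ)
    (hR : ∀ m, Rnk B D (x m) (L m)) (hQ : ∀ a, Q (fun m => B.vt (x m a)))
    (hv : Val B D φ x L 0 1) : Val B D φ (fun m a => x m ((![1, 0] : Fin 2 → Fin 2) a))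
      (fun m a => L m ((![1, 0] : Fin 2 → Fin 2) a)) 0 1 := by
  obtain ⟨y, -, hy⟩ := val_facts hOLK hφ (by norm_num) (by norm_num) x L hR hQ
  obtain ⟨a1, a2, a3⟩ := (hy 0 1).1 hv
  exact (hy 1 0).2 ⟨a2, a1, a3.symm⟩

theorem two (hCFG : T_CFG) (hOLK : T_OLK) (hφ : OLO B 𝔸 D Q φ) (hJD : ∀ θ, ∀ m ∈ J θ, θ m ∉ D)
    (hJ : PJ B D Q φ J) (x : Fin n → Fin 2 → V) (L : Fin n → Fin 2 → ℕ)
    (hR : ∀ m, Rnk B D (x m) (L m)) (hQ : ∀ a, Q (fun m => B.vt (x m a)))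
    (hv : Val B D φ x L 0 1) :
    J (fun m => B.vt (x m 0)) ⊆ J (fun m => B.vt (x m 1)) := by
  intro m1 hm1
  by_contra hm1'
  have h0 : ∀ m, ∃ (x' : Fin 3 → V) (L' : Fin 3 → ℕ), Rnk B D x' L' ∧
      B.vt (x' 0) = B.vt (x m 0) ∧ B.vt (x' 1) = B.vt (x m 1) ∧ B.vt (x' 2) = B.vt (x m 1) ∧
      dat B D x' L' 0 1 = dat B D (x m) (L m) 0 1 ∧ (m ≠ m1 → x' 1 = x' 2) ∧
      (m = m1 → x' 0 ≠ x' 2) := by
    intro m
    by_cases hm : m = m1
    · obtain ⟨x', L', h1, h2, h3, h4, h5, h6⟩ := conf2 hCFG B D (x m) (L m) (hR m)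
      exact ⟨x', L', h1, h2, h3, h4, h5, fun h => absurd hm h, fun _ => h6⟩
    · exact ⟨fun a => x m (![0, 1, 1] a), fun a => L m (![0, 1, 1] a), rnk_comp (hR m) _, rfl,
        rfl, rfl, rfl, fun _ => rfl, fun h => absurd h hm⟩
  choose x' L' h1 h2 h3 h4 h5 h6 h7 using h0
  have hQ' : ∀ a : Fin 3, Q (fun m => B.vt (x' m a)) := by
    intro a
    fin_cases a
    · show Q (fun m => B.vt (x' m 0))
      rw [funext h2]
      exact hQ 0
    · show Q (fun m => B.vt (x' m 1))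
      rw [funext h3]
      exact hQ 1
    · show Q (fun m => B.vt (x' m 2))
      rw [funext h4]
      exact hQ 1
  obtain ⟨y, -, hy⟩ := val_facts hOLK hφ (by norm_num) (by norm_num) x' L' h1 hQ'
  have v01 : Val B D φ x' L' 0 1 := by
    unfold Val at hv ⊢
    rw [funext h5]
    exact hv
  obtain ⟨a1, a2, a3⟩ := (hy 0 1).1 v01
  have hτ : ty D φ (fun m => B.vt (x m 1)) ∉ D := by
    rw [← funext h3]
    exact a2
  have v12 : Val B D φ x' L' 1 2 :=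
    (pj_use hJ x' L' h1 1 2 (fun m => B.vt (x m 1)) h3 h4 (hQ 1) hτ).2
      (fun m hm => h6 m (fun h => hm1' (h ▸ hm)))
  obtain ⟨b1, b2, b3⟩ := (hy 1 2).1 v12
  have v02 : Val B D φ x' L' 0 2 := (hy 0 2).2 ⟨a1, b2, a3.trans b3⟩
  have h8 := one hCFG hOLK hφ hJD hJ (fun m a => x' m ((![0, 2] : Fin 2 → Fin 3) a))
    (fun m a => L' m ((![0, 2] : Fin 2 → Fin 3) a)) (fun m => rnk_comp (h1 m) _)
    (fun a => hQ' ((![0, 2] : Fin 2 → Fin 3) a)) v02 m1 (by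
      show m1 ∈ J (fun m => B.vt (x' m 0))
      rw [funext h2]
      exact hm1)
  exact h7 m1 rfl h8

theorem two' (hCFG : T_CFG) (hOLK : T_OLK) (hφ : OLO B 𝔸 D Q φ) (hJD : ∀ θ, ∀ m ∈ J θ, θ m ∉ D)
    (hJ : PJ B D Q φ J) (x : Fin n → Fin 2 → V) (L : Fin n → Fin 2 → ℕ)
    (hR : ∀ m, Rnk B D (x m) (L m)) (hQ : ∀ a, Q (fun m => B.vt (x m a)))
    (hv : Val B D φ x L 0 1) :
    J (fun m => B.vt (x m 1)) = J (fun m => B.vt (x m 0)) := by
  refine Set.Subset.antisymm ?_ (two hCFG hOLK hφ hJD hJ x L hR hQ hv)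
  exact two hCFG hOLK hφ hJD hJ _ _ (fun m => rnk_comp (hR m) (![1, 0] : Fin 2 → Fin 2))
    (fun a => hQ ((![1, 0] : Fin 2 → Fin 2) a)) (swp hOLK hφ x L hR hQ hv)

/-- the data of the standard pair -/
noncomputable def std (B : Bs V X Θ M) (D : Set Θ) {n : ℕ} (J : (Fin n → Θ) → Set (Fin n))
    (θ θ' : Fin n → Θ) (m : Fin n) : Dt X Θ :=
  ((θ m, θ' m), if θ m ∈ D ∨ θ' m ∈ D then none else
    if m ∈ J θ then some none else some (some (B.fr (θ m) (θ' m), true)))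

theorem three (hCFG : T_CFG) (hOLK : T_OLK) (hφ : OLO B 𝔸 D Q φ)
    (hJ : PJ B D Q φ J) (θ θ' : Fin n → Θ) (hQ : Q θ) (hQ' : Q θ') (hτ : ty D φ θ ∉ D)
    (hτ' : ty D φ θ' ∉ D) (hJJ : J θ' = J θ) (x : Fin n → Fin 2 → V) (L : Fin n → Fin 2 → ℕ)
    (hR : ∀ m, Rnk B D (x m) (L m)) (hx : ∀ m, B.vt (x m 0) = θ m)
    (hx' : ∀ m, B.vt (x m 1) = θ' m) (hxJ : ∀ m ∈ J θ, x m 0 = x m 1) :
    Val B D φ x L 0 1 ↔ (φ (std B D J θ θ')).2 = some none := by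
  have h0 : ∀ m, ∃ (x' : Fin 4 → V) (L' : Fin 4 → ℕ), Rnk B D x' L' ∧
      B.vt (x' 0) = θ m ∧ B.vt (x' 1) = θ' m ∧ B.vt (x' 2) = θ m ∧ B.vt (x' 3) = θ' m ∧
      dat B D x' L' 0 1 = dat B D (x m) (L m) 0 1 ∧ dat B D x' L' 2 3 = std B D J θ θ' m ∧
      (m ∈ J θ → x' 0 = x' 2 ∧ x' 1 = x' 3) := by
    intro m
    by_cases hm : m ∈ J θ
    · refine ⟨fun a => x m (![0, 1, 0, 1] a), fun a => L m (![0, 1, 0, 1] a), rnk_comp (hR m) _,
        hx m, hx' m, hx m, hx' m, rfl, ?_, fun _ => ⟨rfl, rfl⟩⟩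
      show dat B D (x m) (L m) 0 1 = std B D J θ θ' m
      unfold dat std
      rw [hx, hx', if_pos (hxJ m hm), if_pos hm]
    · obtain ⟨x', L', h1, h2, h3, h4, h5, h6, h7, h8⟩ := conf3 hCFG B D (x m) (L m) (hR m)
      rw [hx, hx'] at h7
      rw [hx] at h2 h4
      rw [hx'] at h3 h5
      refine ⟨x', L', h1, h2, h3, h4, h5, h6, ?_, fun h => absurd h hm⟩
      rw [h7]
      unfold std
      rw [if_neg hm]
  choose x' L' h1 h2 h3 h4 h5 h6 h7 h8 using h0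
  have hQQ : ∀ a : Fin 4, Q (fun m => B.vt (x' m a)) := by
    intro a
    fin_cases a
    · show Q (fun m => B.vt (x' m 0))
      rw [funext h2]
      exact hQ
    · show Q (fun m => B.vt (x' m 1))
      rw [funext h3]
      exact hQ'
    · show Q (fun m => B.vt (x' m 2))
      rw [funext h4]
      exact hQ
    · show Q (fun m => B.vt (x' m 3))
      rw [funext h5]
      exact hQ'
  obtain ⟨y, -, hy⟩ := val_facts hOLK hφ (by norm_num) (by norm_num) x' L' h1 hQQ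
  have v02 := (pj_use hJ x' L' h1 0 2 θ h2 h4 hQ hτ).2 (fun m hm => (h8 m hm).1)
  have v13 := (pj_use hJ x' L' h1 1 3 θ' h3 h5 hQ' hτ').2 (fun m hm => (h8 m (hJJ ▸ hm)).2)
  obtain ⟨a1, a2, a3⟩ := (hy 0 2).1 v02
  obtain ⟨b1, b2, b3⟩ := (hy 1 3).1 v13
  have e1 : Val B D φ x L 0 1 ↔ Val B D φ x' L' 0 1 := by
    unfold Val
    rw [funext h6]
  have e2 : Val B D φ x' L' 2 3 ↔ (φ (std B D J θ θ')).2 = some none := by
    unfold Val
    rw [funext h7]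
  rw [e1, ← e2, hy 0 1, hy 2 3, a3, b3]
  exact ⟨fun h => ⟨a2, b2, h.2.2⟩, fun h => ⟨a1, b1, h.2.2⟩⟩

end main

theorem pf_TM3 (hCFG : T_CFG) (hOLK : T_OLK) : T_TM3 := by
  intro σ V X Θ _ M B 𝔸 D n Q φ hφ J hJD hJ
  have hJ' : PJ B D Q φ J := hJ
  let E : (Fin n → Θ) → (Fin n → Θ) → Prop := fun θ θ' => Q θ ∧ Q θ' ∧
    ∃ (x : Fin n → Fin 2 → V) (L : Fin n → Fin 2 → ℕ), (∀ m, Rnk B D (x m) (L m)) ∧
      (∀ m, B.vt (x m 0) = θ m) ∧ (∀ m, B.vt (x m 1) = θ' m) ∧ Val B D φ x L 0 1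
  have hQa : ∀ (x : Fin n → Fin 2 → V) (θ θ' : Fin n → Θ), Q θ → Q θ' →
      (∀ m, B.vt (x m 0) = θ m) → (∀ m, B.vt (x m 1) = θ' m) →
      ∀ a, Q (fun m => B.vt (x m a)) := by
    intro x θ θ' h1 h2 h3 h4 a
    fin_cases a
    · show Q (fun m => B.vt (x m 0))
      rw [funext h3]
      exact h1
    · show Q (fun m => B.vt (x m 1))
      rw [funext h4]
      exact h2
  -- consequences
  have hdom : ∀ θ θ', E θ θ' → Q θ ∧ ty D φ θ ∉ D ∧ ty D φ θ' = ty D φ θ ∧ J θ' = J θ ∧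
      ∀ m ∈ J θ, θ' m = θ m ∧ θ m ∉ D := by
    rintro θ θ' ⟨h1, h2, x, L, h3, h4, h5, h6⟩
    have hQx := hQa x θ θ' h1 h2 h4 h5
    obtain ⟨y, hy1, hy⟩ := val_facts hOLK hφ (by norm_num) (by norm_num) x L h3 hQx
    obtain ⟨a1, a2, a3⟩ := (hy 0 1).1 h6
    have k1 := two' hCFG hOLK hφ hJD hJ' x L h3 hQx h6
    have k2 := one hCFG hOLK hφ hJD hJ' x L h3 hQx h6
    have k3 : ty D φ (fun m => B.vt (x m 1)) = ty D φ (fun m => B.vt (x m 0)) := by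
      obtain ⟨y', hy'⟩ := hOLK σ V X Θ M B 𝔸 D n Q φ hφ 2 x L (by norm_num)
        (le_trans (by norm_num) B.four) h3 hQx
      rw [ty_eq φ x L 0, ty_eq φ x L 1, ← hy', ← hy']
      have h7 := h6
      unfold Val at h7
      rw [← hy' 0 1] at h7
      have h8 : y' 0 = y' 1 := by
        by_contra hne
        unfold out at h7
        dsimp only at h7
        by_cases h9 : B.vt (y' 0) ∈ D ∨ B.vt (y' 1) ∈ D
        · rw [if_pos h9] at h7
          simp at h7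
        · rw [if_neg h9, if_neg hne] at h7
          simp at h7
      show B.vt (y' 1) = B.vt (y' 0)
      rw [h8]
    rw [funext h4, funext h5] at k1 k3
    rw [funext h4] at k2 a1
    refine ⟨h1, a1, k3, k1, fun m hm => ⟨?_, hJD θ m hm⟩⟩
    rw [← h4, ← h5, k2 m hm]
  have hall : ∀ θ θ', E θ θ' → ∀ (x : Fin n → Fin 2 → V) (L : Fin n → Fin 2 → ℕ),
      (∀ m, Rnk B D (x m) (L m)) → (∀ m, B.vt (x m 0) = θ m) → (∀ m, B.vt (x m 1) = θ' m) →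
      (∀ m ∈ J θ, x m 0 = x m 1) → Val B D φ x L 0 1 := by
    intro θ θ' hE x L hR hx hx' hxJ
    obtain ⟨d1, d2, d3, d4, d5⟩ := hdom θ θ' hE
    obtain ⟨h1, h2, x₀, L₀, h3, h4, h5, h6⟩ := hE
    have hτ' : ty D φ θ' ∉ D := by rw [d3]; exact d2
    have k2 := one hCFG hOLK hφ hJD hJ' x₀ L₀ h3 (hQa x₀ θ θ' h1 h2 h4 h5) h6
    rw [funext h4] at k2
    exact (three hCFG hOLK hφ hJ' θ θ' h1 h2 d2 hτ' d4 x L hR hx hx' hxJ).2
      ((three hCFG hOLK hφ hJ' θ θ' h1 h2 d2 hτ' d4 x₀ L₀ h3 h4 h5 k2).1 h6)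
  refine ⟨E, ?_, ?_, ?_, hdom, ?_, ?_⟩
  · intro θ hQ hτ
    choose v hv using fun m => B.surjT (θ m)
    have hR : ∀ m, Rnk B D (fun _ : Fin 2 => v m) (fun _ : Fin 2 => 0) :=
      fun m a b _ _ => ⟨fun _ => rfl, fun _ => rfl⟩
    exact ⟨hQ, hQ, fun m _ => v m, fun _ _ => 0, hR, hv, hv,
      (hJ θ hQ hτ (fun m _ => v m) (fun _ _ => 0) hR (fun m _ => hv m)).2 (fun m _ => rfl)⟩
  · rintro θ θ' ⟨h1, h2, x, L, h3, h4, h5, h6⟩
    exact ⟨h2, h1, fun m a => x m ((![1, 0] : Fin 2 → Fin 2) a),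
      fun m a => L m ((![1, 0] : Fin 2 → Fin 2) a), fun m => rnk_comp (h3 m) _, h5, h4,
      swp hOLK hφ x L h3 (hQa x θ θ' h1 h2 h4 h5) h6⟩
  · intro θ θ' θ'' hE hE'
    obtain ⟨d1, d2, d3, d4, d5⟩ := hdom θ θ' hE
    obtain ⟨e1, e2, e3, e4, e5⟩ := hdom θ' θ'' hE'
    have h0 : ∀ m, ∃ (x : Fin 3 → V) (L : Fin 3 → ℕ), Rnk B D x L ∧ B.vt (x 0) = θ m ∧
        B.vt (x 1) = θ' m ∧ B.vt (x 2) = θ'' m ∧ (m ∈ J θ → x 0 = x 1 ∧ x 1 = x 2) := by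
      intro m
      by_cases hm : m ∈ J θ
      · obtain ⟨v, hv⟩ := B.surjT (θ m)
        have k1 := (d5 m hm).1
        have k2 := (e5 m (d4 ▸ hm)).1
        exact ⟨fun _ => v, fun _ => 0, fun a b _ _ => ⟨fun _ => rfl, fun _ => rfl⟩, hv,
          by rw [hv, k1], by rw [hv, k2, k1], fun _ => ⟨rfl, rfl⟩⟩
      · obtain ⟨v0, hv0⟩ := B.surjT (θ m)
        obtain ⟨v1, hv1⟩ := B.surjT (θ' m)
        obtain ⟨v2, hv2⟩ := B.surjT (θ'' m)
        obtain ⟨x, L, hR, hx⟩ := conf4 hCFG B D ![v0, v1, v2]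
        exact ⟨x, L, hR, (hx 0).trans hv0, (hx 1).trans hv1, (hx 2).trans hv2,
          fun h => absurd h hm⟩
    choose x L h1 h2 h3 h4 h5 using h0
    have hQQ : ∀ a : Fin 3, Q (fun m => B.vt (x m a)) := by
      intro a
      fin_cases a
      · show Q (fun m => B.vt (x m 0))
        rw [funext h2]
        exact d1
      · show Q (fun m => B.vt (x m 1))
        rw [funext h3]
        exact e1
      · show Q (fun m => B.vt (x m 2))
        rw [funext h4]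
        exact hE'.2.1
    obtain ⟨y, -, hy⟩ := val_facts hOLK hφ (by norm_num) (by norm_num) x L h1 hQQ
    have v01 : Val B D φ x L 0 1 := hall θ θ' hE (fun m a => x m ((![0, 1] : Fin 2 → Fin 3) a))
      (fun m a => L m ((![0, 1] : Fin 2 → Fin 3) a)) (fun m => rnk_comp (h1 m) _) h2 h3
      (fun m hm => (h5 m hm).1)
    have v12 : Val B D φ x L 1 2 := hall θ' θ'' hE' (fun m a => x m ((![1, 2] : Fin 2 → Fin 3) a))
      (fun m a => L m ((![1, 2] : Fin 2 → Fin 3) a)) (fun m => rnk_comp (h1 m) _) h3 h4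
      (fun m hm => (h5 m (d4 ▸ hm)).2)
    obtain ⟨a1, a2, a3⟩ := (hy 0 1).1 v01
    obtain ⟨b1, b2, b3⟩ := (hy 1 2).1 v12
    exact ⟨d1, hE'.2.1, fun m a => x m ((![0, 2] : Fin 2 → Fin 3) a),
      fun m a => L m ((![0, 2] : Fin 2 → Fin 3) a), fun m => rnk_comp (h1 m) _, h2, h4,
      (hy 0 2).2 ⟨a1, b2, a3.trans b3⟩⟩
  · intro x L hR hQ
    obtain ⟨y, hy1, -⟩ := val_facts hOLK hφ (by norm_num) (by norm_num) x L hR hQ
    exact hy1 0 1
  · intro x L hR hQ hτ hτ'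
    constructor
    · intro hv
      exact ⟨⟨hQ 0, hQ 1, x, L, hR, fun _ => rfl, fun _ => rfl, hv⟩,
        one hCFG hOLK hφ hJD hJ' x L hR hQ hv⟩
    · rintro ⟨hE, hxJ⟩
      exact hall _ _ hE x L hR (fun _ => rfl) (fun _ => rfl) hxJ

end Pool.Agent.H21.SO
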